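import Mathlib
import Pool.Agent.Helper36.Disk.Defs
import Pool.Agent.Helper42.ArcLength
import Pool.Agent.Helper42.PerimeterFive

/-! # Packet D: the perimeter of a finite union of closed unit disks is the right derivative of
the area. -/

open MeasureTheory Set Metric Filter Topology
open scoped ENNReal

namespace Pool.Agent.Helper40.Disk

open Pool.Agent.Helper42.Arc

/-! ### The exposed directions -/

/-- `t` is a direction in which the circle of radius `r` around `p` is not in the interior of a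
disk of radius `r` around some `c ∈ S`. -/
def Q (S : Finset ℂ) (p : ℂ) (r t : ℝ) : Prop :=
  ∀ c ∈ S, 0 ≤ 2 * r * ((p - c).re * Real.cos t + (p - c).im * Real.sin t) +
    ((p - c).re ^ 2 + (p - c).im ^ 2)

lemma dist_sq (z c : ℂ) : dist z c ^ 2 = (z.re - c.re) ^ 2 + (z.im - c.im) ^ 2 := by
  rw [Complex.dist_eq_re_im, Real.sq_sqrt (by positivity)]

/-- The point at distance `r` in direction `t` from `p`. -/
noncomputable def pt (p : ℂ) (r t : ℝ) : ℂ := p + (r : ℂ) * (Real.cos t + Real.sin t * Complex.I)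

lemma pt_re (p : ℂ) (r t : ℝ) : (pt p r t).re = p.re + r * Real.cos t := by
  simp [pt, ← Complex.ofReal_cos]

lemma pt_im (p : ℂ) (r t : ℝ) : (pt p r t).im = p.im + r * Real.sin t := by
  simp [pt, ← Complex.ofReal_sin]

lemma pt_one (p : ℂ) (t : ℝ) : pt p 1 t = cis p t := by
  apply Complex.ext
  · rw [pt_re, cis_re, one_mul]
  · rw [pt_im, cis_im, one_mul]

lemma dist_pt_self (p : ℂ) {r : ℝ} (hr : 0 ≤ r) (t : ℝ) : dist (pt p r t) p = r := by
  have h : dist (pt p r t) p ^ 2 = r ^ 2 := by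
    rw [dist_sq, pt_re, pt_im]
    have := Real.cos_sq_add_sin_sq t
    nlinarith
  exact (pow_left_inj₀ dist_nonneg hr two_ne_zero).1 h

lemma Q_iff (S : Finset ℂ) (p : ℂ) {r : ℝ} (_ : 0 ≤ r) (t : ℝ) :
    Q S p r t ↔ ∀ c ∈ S, dist (pt p r t) p ≤ dist (pt p r t) c := by
  refine forall₂_congr fun c _ => ?_
  rw [← pow_le_pow_iff_left₀ dist_nonneg dist_nonneg two_ne_zero, dist_sq, dist_sq, pt_re, pt_im,
    Complex.sub_re, Complex.sub_im]
  constructor <;> intro h <;> nlinarith

lemma isClosed_Q (S : Finset ℂ) (p : ℂ) : IsClosed {q : ℝ × ℝ | Q S p q.1 q.2} := by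
  simp only [Q, ofPred_forall]
  refine isClosed_iInter fun c => isClosed_iInter fun _ => ?_
  exact isClosed_le (by fun_prop) (by fun_prop)

/-- the exposed directions -/
def E (S : Finset ℂ) (p : ℂ) (r : ℝ) : Set ℝ := {t | Q S p r t}

lemma measurableSet_E (S : Finset ℂ) (p : ℂ) (r : ℝ) : MeasurableSet (E S p r) := by
  have h : E S p r = Prod.mk r ⁻¹' {q : ℝ × ℝ | Q S p q.1 q.2} := rfl
  rw [h]
  exact measurable_prodMk_left (isClosed_Q S p).measurableSet

/-- the measure of the set of exposed directions -/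
noncomputable def G (S : Finset ℂ) (p : ℂ) (r : ℝ) : ℝ≥0∞ :=
  (volume.restrict (Ioo (-Real.pi) Real.pi)) (E S p r)

lemma measurable_G (S : Finset ℂ) (p : ℂ) : Measurable (G S p) :=
  measurable_measure_prodMk_left (isClosed_Q S p).measurableSet

lemma G_le (S : Finset ℂ) (p : ℂ) (r : ℝ) : G S p r ≤ ENNReal.ofReal (2 * Real.pi) := by
  refine (measure_mono (subset_univ _)).trans ?_
  rw [Measure.restrict_apply_univ, Real.volume_Ioo]
  exact ENNReal.ofReal_le_ofReal (by linarith)

/-! ### Countability of the exceptional directions -/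

lemma countable_cos (κ φ : ℝ) : {t : ℝ | Real.cos (t - φ) = κ}.Countable := by
  by_cases h : ∃ t, Real.cos (t - φ) = κ
  · obtain ⟨t₀, ht₀⟩ := h
    have : {t : ℝ | Real.cos (t - φ) = κ} ⊆
        (⋃ k : ℤ, {φ + (2 * k * Real.pi + (t₀ - φ))}) ∪ ⋃ k : ℤ, {φ + (2 * k * Real.pi - (t₀ - φ))} := by
      intro t ht
      have h1 : Real.cos (t₀ - φ) = Real.cos (t - φ) := by rw [ht₀]; exact ht.symm
      obtain ⟨k, hk | hk⟩ := Real.cos_eq_cos_iff.1 h1
      · left
        exact mem_iUnion.2 ⟨k, by rw [mem_singleton_iff]; linarith⟩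
      · right
        exact mem_iUnion.2 ⟨k, by rw [mem_singleton_iff]; linarith⟩
    refine Countable.mono this (Countable.union ?_ ?_)
    · exact countable_iUnion fun k => countable_singleton _
    · exact countable_iUnion fun k => countable_singleton _
  · have : {t : ℝ | Real.cos (t - φ) = κ} = ∅ := by
      ext t
      simp only [mem_ofPred_eq, mem_empty_iff_false, iff_false]
      exact fun ht => h ⟨t, ht⟩
    rw [this]
    exact countable_empty

lemma countable_trig {a b : ℝ} (h : ¬ (a = 0 ∧ b = 0)) (κ : ℝ) :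
    {t : ℝ | a * Real.cos t + b * Real.sin t = κ}.Countable := by
  have hd : (⟨a, b⟩ : ℂ) ≠ 0 := by
    intro h0
    exact h ⟨congrArg Complex.re h0, congrArg Complex.im h0⟩
  have hn : 0 < ‖(⟨a, b⟩ : ℂ)‖ := norm_pos_iff.2 hd
  have h1 := Complex.norm_mul_cos_arg ⟨a, b⟩
  have h2 := Complex.norm_mul_sin_arg ⟨a, b⟩
  simp only at h1 h2
  refine (countable_cos (κ / ‖(⟨a, b⟩ : ℂ)‖) (Complex.arg ⟨a, b⟩)).mono ?_
  intro t ht
  simp only [mem_ofPred_eq] at ht ⊢
  rw [eq_div_iff hn.ne', Real.cos_sub, ← ht]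
  linear_combination (Real.cos t) * h1 + (Real.sin t) * h2

/-- Two distinct unit circles meet in a countable set. -/
lemma countable_inter {p c : ℂ} (h : p ≠ c) : {z : ℂ | dist z p = 1 ∧ dist z c = 1}.Countable := by
  have hd : ¬ ((p - c).re = 0 ∧ (p - c).im = 0) := by
    rintro ⟨h1, h2⟩
    apply h
    rw [← sub_eq_zero]
    exact Complex.ext h1 h2
  refine ((countable_trig hd (-(((p - c).re ^ 2 + (p - c).im ^ 2) / 2))).image (cis p)).mono ?_
  rintro z ⟨hzp, hzc⟩
  have hz : z = cis p (Complex.arg (z - p)) := by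
    have hn : ‖z - p‖ = 1 := by rw [← dist_eq_norm]; exact hzp
    have h1 := Complex.norm_mul_cos_arg (z - p)
    have h2 := Complex.norm_mul_sin_arg (z - p)
    rw [hn, one_mul] at h1 h2
    apply Complex.ext
    · rw [cis_re, h1]; simp
    · rw [cis_im, h2]; simp
  refine ⟨Complex.arg (z - p), ?_, hz.symm⟩
  have h3 : dist z p ^ 2 = 1 := by rw [hzp]; norm_num
  have h4 : dist z c ^ 2 = 1 := by rw [hzc]; norm_num
  rw [dist_sq] at h3 h4
  rw [hz, cis_re, cis_im] at h3 h4
  simp only [mem_ofPred_eq, Complex.sub_re, Complex.sub_im] at *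
  nlinarith

/-! ### The length of the image of a measurable set of directions -/

lemma cis_injOn_Ioo (p : ℂ) : InjOn (cis p) (Ioo (-Real.pi) Real.pi) := by
  refine (cis_injOn p (-Real.pi)).mono ?_
  intro x hx
  exact ⟨hx.1.le, by linarith [hx.2]⟩

lemma measurableSet_cis_image (p : ℂ) {F : Set ℝ} (hF : MeasurableSet F)
    (h : F ⊆ Ioo (-Real.pi) Real.pi) : MeasurableSet (cis p '' F) :=
  hF.image_of_continuousOn_injOn (continuous_cis p).continuousOn ((cis_injOn_Ioo p).mono h)

lemma length_cis_image (p : ℂ) {F : Set ℝ} (hF : MeasurableSet F)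
    (h : F ⊆ Ioo (-Real.pi) Real.pi) : μH[1] (cis p '' F) = volume F := by
  have hle : ∀ F : Set ℝ, μH[1] (cis p '' F) ≤ volume F := by
    intro F
    have h := (lipschitz_cis p).hausdorffMeasure_image_le (d := 1) zero_le_one F
    rw [hausdorffMeasure_real] at h
    simpa using h
  refine le_antisymm (hle F) ?_
  have h1 := arc_Ioo p (-Real.pi) Real.pi (by linarith)
  rw [← Real.volume_Ioo] at h1
  have hsplit : cis p '' Ioo (-Real.pi) Real.pi =
      cis p '' F ∪ cis p '' (Ioo (-Real.pi) Real.pi \ F) := by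
    rw [← image_union, union_sdiff_cancel h]
  have h2 : μH[1] (cis p '' Ioo (-Real.pi) Real.pi) ≤
      μH[1] (cis p '' F) + volume (Ioo (-Real.pi) Real.pi \ F) := by
    rw [hsplit]
    refine (measure_union_le _ _).trans ?_
    gcongr
    exact hle _
  rw [h1] at h2
  have h3 : volume (Ioo (-Real.pi) Real.pi \ F) + volume F = volume (Ioo (-Real.pi) Real.pi) := by
    rw [add_comm]
    have := measure_inter_add_sdiff (μ := volume) (Ioo (-Real.pi) Real.pi) hF
    rwa [inter_eq_self_of_subset_right h] at this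
  have hfin : volume (Ioo (-Real.pi) Real.pi \ F) ≠ ⊤ := by
    refine ne_top_of_le_ne_top ?_ (measure_mono sdiff_subset)
    rw [Real.volume_Ioo]
    exact ENNReal.ofReal_ne_top
  rw [← h3, add_comm (μH[1] (cis p '' F))] at h2
  exact (ENNReal.add_le_add_iff_left hfin).1 h2

/-- the exposed part of the circle around `p` -/
def W (S : Finset ℂ) (p : ℂ) : Set ℂ := cis p '' (Ioo (-Real.pi) Real.pi ∩ E S p 1)

lemma measurableSet_W (S : Finset ℂ) (p : ℂ) : MeasurableSet (W S p) :=
  measurableSet_cis_image p (measurableSet_Ioo.inter (measurableSet_E S p 1)) inter_subset_left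

lemma length_W (S : Finset ℂ) (p : ℂ) : μH[1] (W S p) = G S p 1 := by
  rw [W, length_cis_image p (measurableSet_Ioo.inter (measurableSet_E S p 1)) inter_subset_left,
    G, Measure.restrict_apply (measurableSet_E S p 1), inter_comm]

/-- the exceptional points -/
def N (S : Finset ℂ) : Set ℂ :=
  (⋃ p ∈ S, ⋃ c ∈ S, ⋃ _ : p ≠ c, {z : ℂ | dist z p = 1 ∧ dist z c = 1}) ∪
    ⋃ p ∈ S, {cis p Real.pi}

lemma countable_N (S : Finset ℂ) : (N S).Countable := by
  refine Countable.union ?_ ?_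
  · refine S.countable_toSet.biUnion fun p _ => ?_
    refine S.countable_toSet.biUnion fun c _ => ?_
    exact countable_iUnion fun h => countable_inter h
  · exact S.countable_toSet.biUnion fun p _ => countable_singleton _

lemma length_countable {A : Set ℂ} (hA : A.Countable) : μH[1] A = 0 := by
  have := Measure.nullSingletonClass_hausdorff ℂ (d := 1) (by norm_num)
  exact hA.measure_zero _

lemma U_eq (S : Finset ℂ) (r : ℝ) :
    (⋃ p ∈ S, closedBall p r) = ⋃ i : S, closedBall (i : ℂ) r := by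
  ext z
  simp

lemma frontier_subset (S : Finset ℂ) :
    frontier (⋃ p ∈ S, closedBall p (1 : ℝ)) ⊆ (⋃ p ∈ S, W S p) ∪ N S := by
  intro z hz
  rw [U_eq] at hz
  obtain ⟨⟨⟨p, hp⟩, hi⟩, hj⟩ := frontier_union_subset (fun i : S => (i : ℂ)) hz
  simp only at hi
  have hz' : z = cis p (Complex.arg (z - p)) := by
    have hn : ‖z - p‖ = 1 := by rw [← dist_eq_norm]; exact hi
    have h1 := Complex.norm_mul_cos_arg (z - p)
    have h2 := Complex.norm_mul_sin_arg (z - p)
    rw [hn, one_mul] at h1 h2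
    apply Complex.ext
    · rw [cis_re, h1]; simp
    · rw [cis_im, h2]; simp
  rcases (Complex.arg_le_pi (z - p)).eq_or_lt with h | h
  · right
    right
    refine mem_iUnion₂.2 ⟨p, hp, ?_⟩
    rw [mem_singleton_iff, ← h]
    exact hz'
  · left
    refine mem_iUnion₂.2 ⟨p, hp, Complex.arg (z - p), ⟨⟨Complex.neg_pi_lt_arg _, h⟩, ?_⟩, hz'.symm⟩
    change Q S p 1 _
    rw [Q_iff S p zero_le_one, pt_one, ← hz']
    intro c hc
    rw [hi]
    exact hj ⟨c, hc⟩

lemma W_subset (S : Finset ℂ) {p : ℂ} (hp : p ∈ S) :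
    W S p ⊆ frontier (⋃ p ∈ S, closedBall p (1 : ℝ)) ∪ N S := by
  rintro z ⟨t, ⟨-, ht⟩, rfl⟩
  by_cases hN : cis p t ∈ N S
  · exact Or.inr hN
  left
  change Q S p 1 t at ht
  rw [Q_iff S p zero_le_one, pt_one, cis_dist] at ht
  rw [U_eq]
  refine mem_frontier_union (fun i : S => (i : ℂ)) ⟨p, hp⟩ (cis_dist p t) ?_
  rintro ⟨c, hc⟩
  simp only
  by_cases hcp : c = p
  · exact Or.inl hcp
  right
  refine lt_of_le_of_ne (ht c hc) fun h => hN (Or.inl ?_)
  refine mem_iUnion₂.2 ⟨p, hp, mem_iUnion₂.2 ⟨c, hc, mem_iUnion.2 ⟨fun h => hcp h.symm, ?_⟩⟩⟩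
  exact ⟨cis_dist p t, h.symm⟩

lemma length_frontier (S : Finset ℂ) :
    μH[1] (frontier (⋃ p ∈ S, closedBall p (1 : ℝ))) = ∑ p ∈ S, G S p 1 := by
  have hN : μH[1] (N S) = 0 := length_countable (countable_N S)
  have h1 : μH[1] (frontier (⋃ p ∈ S, closedBall p (1 : ℝ))) = μH[1] (⋃ p ∈ S, W S p) := by
    apply le_antisymm
    · calc μH[1] (frontier (⋃ p ∈ S, closedBall p (1 : ℝ)))
          ≤ μH[1] ((⋃ p ∈ S, W S p) ∪ N S) := measure_mono (frontier_subset S)
        _ ≤ μH[1] (⋃ p ∈ S, W S p) + μH[1] (N S) := measure_union_le _ _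
        _ = μH[1] (⋃ p ∈ S, W S p) := by rw [hN, add_zero]
    · calc μH[1] (⋃ p ∈ S, W S p)
          ≤ μH[1] (frontier (⋃ p ∈ S, closedBall p (1 : ℝ)) ∪ N S) :=
            measure_mono (iUnion₂_subset fun p hp => W_subset S hp)
        _ ≤ μH[1] (frontier (⋃ p ∈ S, closedBall p (1 : ℝ))) + μH[1] (N S) := measure_union_le _ _
        _ = μH[1] (frontier (⋃ p ∈ S, closedBall p (1 : ℝ))) := by rw [hN, add_zero]
  rw [h1, measure_biUnion_finset₀]
  · exact Finset.sum_congr rfl fun p _ => length_W S p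
  · intro p hp c hc hpc
    have hnull : μH[1] {z : ℂ | dist z p = 1 ∧ dist z c = 1} = 0 :=
      length_countable (countable_inter hpc)
    have hsub : W S p ∩ W S c ⊆ {z : ℂ | dist z p = 1 ∧ dist z c = 1} := by
      rintro z ⟨⟨t, ⟨-, ht⟩, rfl⟩, ⟨t', ⟨-, ht'⟩, h⟩⟩
      refine ⟨cis_dist p t, ?_⟩
      rw [← h]
      exact cis_dist c t'
    exact measure_mono_null hsub hnull
  · intro p _
    exact (measurableSet_W S p).nullMeasurableSet

/-! ### The area -/

/-- the part of the ring between the radii `1` and `1 + h` that belongs to `p` -/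
def P (S : Finset ℂ) (p : ℂ) (h : ℝ) : Set ℂ :=
  {z | 1 < dist z p ∧ dist z p ≤ 1 + h ∧ ∀ c ∈ S, dist z p ≤ dist z c}

lemma measurableSet_P (S : Finset ℂ) (p : ℂ) (h : ℝ) : MeasurableSet (P S p h) := by
  have : P S p h = {z | 1 < dist z p} ∩ ({z | dist z p ≤ 1 + h} ∩
      ⋂ c ∈ S, {z | dist z p ≤ dist z c}) := by
    ext z
    simp [P]
  rw [this]
  refine (isOpen_lt (by fun_prop) (by fun_prop)).measurableSet.inter
    ((isClosed_le (by fun_prop) (by fun_prop)).measurableSet.inter ?_)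
  refine Finset.measurableSet_biInter S fun c _ => ?_
  exact (isClosed_le (by fun_prop) (by fun_prop)).measurableSet

lemma area_P (S : Finset ℂ) (p : ℂ) (h : ℝ) :
    volume (P S p h) = ∫⁻ r in Ioc 1 (1 + h), ENNReal.ofReal r * G S p r := by
  have h0 : volume (P S p h) = ∫⁻ z, (P S p h).indicator 1 (p + z) := by
    rw [lintegral_add_left_eq_self (μ := volume) (fun z => (P S p h).indicator 1 z) p,
      lintegral_indicator_one (measurableSet_P S p h)]
  rw [h0, ← Complex.lintegral_comp_polarCoord_symm]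
  have h1 : ∀ q ∈ polarCoord.target, ENNReal.ofReal q.1 •
      (P S p h).indicator (1 : ℂ → ℝ≥0∞) (p + Complex.polarCoord.symm q) =
      (Ioc 1 (1 + h)).indicator (fun r => ENNReal.ofReal r) q.1 *
        {q : ℝ × ℝ | Q S p q.1 q.2}.indicator 1 q := by
    intro q hq
    have hq1 : 0 < q.1 := hq.1
    have hz : p + Complex.polarCoord.symm q = pt p q.1 q.2 := by
      rw [Complex.polarCoord_symm_apply, pt]
    rw [hz]
    have hmem : pt p q.1 q.2 ∈ P S p h ↔ q.1 ∈ Ioc 1 (1 + h) ∧ q ∈ {q : ℝ × ℝ | Q S p q.1 q.2} := by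
      simp only [P, mem_ofPred_eq, Q_iff S p hq1.le, dist_pt_self p hq1.le, mem_Ioc, and_assoc]
    by_cases a1 : q.1 ∈ Ioc 1 (1 + h)
    · by_cases a2 : q ∈ {q : ℝ × ℝ | Q S p q.1 q.2}
      · rw [indicator_of_mem (hmem.2 ⟨a1, a2⟩), indicator_of_mem a1, indicator_of_mem a2]
        simp
      · rw [indicator_of_notMem (fun hh => a2 (hmem.1 hh).2), indicator_of_notMem a2]
        simp
    · rw [indicator_of_notMem (fun hh => a1 (hmem.1 hh).1), indicator_of_notMem a1]
      simp
  rw [setLIntegral_congr_fun polarCoord.open_target.measurableSet h1]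
  have htgt : polarCoord.target = Ioi (0 : ℝ) ×ˢ Ioo (-Real.pi) Real.pi := rfl
  rw [htgt, Measure.volume_eq_prod, ← Measure.prod_restrict, lintegral_prod]
  · have h2 : ∀ r : ℝ, ∫⁻ t in Ioo (-Real.pi) Real.pi,
        (Ioc 1 (1 + h)).indicator (fun r => ENNReal.ofReal r) r *
          {q : ℝ × ℝ | Q S p q.1 q.2}.indicator 1 (r, t) =
        (Ioc 1 (1 + h)).indicator (fun r => ENNReal.ofReal r * G S p r) r := by
      intro r
      have h3 : Measurable fun t : ℝ => {q : ℝ × ℝ | Q S p q.1 q.2}.indicator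
          (1 : ℝ × ℝ → ℝ≥0∞) (r, t) :=
        (measurable_one.indicator (isClosed_Q S p).measurableSet).comp measurable_prodMk_left
      rw [lintegral_const_mul _ h3]
      have h4 : ∫⁻ t in Ioo (-Real.pi) Real.pi, {q : ℝ × ℝ | Q S p q.1 q.2}.indicator
          (1 : ℝ × ℝ → ℝ≥0∞) (r, t) = G S p r := by
        have h5 : ∀ t, {q : ℝ × ℝ | Q S p q.1 q.2}.indicator (1 : ℝ × ℝ → ℝ≥0∞) (r, t) =
            (E S p r).indicator 1 t := by
          intro t
          rfl
        simp_rw [h5]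
        rw [lintegral_indicator_one (measurableSet_E S p r)]
        rfl
      rw [h4]
      by_cases a1 : r ∈ Ioc 1 (1 + h)
      · rw [indicator_of_mem a1, indicator_of_mem a1]
      · rw [indicator_of_notMem a1, indicator_of_notMem a1, zero_mul]
    simp_rw [h2]
    rw [lintegral_indicator measurableSet_Ioc, Measure.restrict_restrict measurableSet_Ioc]
    congr 2
    rw [inter_eq_left]
    intro x hx
    exact lt_trans one_pos hx.1
  · refine Measurable.aemeasurable ?_
    refine Measurable.mul ?_ (measurable_one.indicator (isClosed_Q S p).measurableSet)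
    exact (Measurable.indicator (by fun_prop) measurableSet_Ioc).comp measurable_fst

lemma bisector_null {p c : ℂ} (h : p ≠ c) : volume {z : ℂ | dist z p = dist z c} = 0 := by
  have h1 := Measure.addHaar_affineSubspace (volume : Measure ℂ) (AffineSubspace.perpBisector p c)
    (by rw [Ne, AffineSubspace.perpBisector_eq_top]; exact h)
  refine measure_mono_null ?_ h1
  intro z hz
  exact AffineSubspace.mem_perpBisector_iff_dist_eq.2 hz

lemma ring_eq (S : Finset ℂ) {h : ℝ} (_ : 0 < h) :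
    (⋃ p ∈ S, closedBall p (1 + h)) \ (⋃ p ∈ S, closedBall p (1 : ℝ)) = ⋃ p ∈ S, P S p h := by
  ext z
  simp only [Set.mem_sdiff, mem_iUnion, mem_closedBall, exists_prop, not_exists, not_and, not_le, P,
    mem_ofPred_eq]
  constructor
  · rintro ⟨⟨q, hq, hqz⟩, hall⟩
    obtain ⟨p, hp, hmin⟩ := S.exists_min_image (fun p => dist z p) ⟨q, hq⟩
    exact ⟨p, hp, hall p hp, (hmin q hq).trans hqz, hmin⟩
  · rintro ⟨p, hp, h1, h2, h3⟩
    exact ⟨⟨p, hp, h2⟩, fun c hc => h1.trans_le (h3 c hc)⟩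

lemma area_diff (S : Finset ℂ) {h : ℝ} (hh : 0 < h) :
    (volume (⋃ p ∈ S, closedBall p (1 + h))).toReal -
      (volume (⋃ p ∈ S, closedBall p (1 : ℝ))).toReal =
      (∑ p ∈ S, ∫⁻ r in Ioc 1 (1 + h), ENNReal.ofReal r * G S p r).toReal := by
  have hsub : (⋃ p ∈ S, closedBall p (1 : ℝ)) ⊆ ⋃ p ∈ S, closedBall p (1 + h) :=
    iUnion₂_mono fun p _ => closedBall_subset_closedBall (by linarith)
  have hfin : ∀ r : ℝ, volume (⋃ p ∈ S, closedBall p r) ≠ ⊤ := by
    intro r
    have hc : IsCompact (⋃ p ∈ S, closedBall p r) :=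
      S.isCompact_biUnion fun p _ => isCompact_closedBall p r
    exact hc.measure_lt_top.ne
  have hmeas : MeasurableSet (⋃ p ∈ S, closedBall p (1 : ℝ)) :=
    S.measurableSet_biUnion fun p _ => measurableSet_closedBall
  have h1 := measure_sdiff hsub hmeas.nullMeasurableSet (hfin 1)
  rw [← ENNReal.toReal_sub_of_le (measure_mono hsub) (hfin _), ← h1, ring_eq S hh,
    measure_biUnion_finset₀]
  · simp_rw [area_P]
  · intro p hp c hc hpc
    refine measure_mono_null ?_ (bisector_null hpc)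
    rintro z ⟨⟨_, _, h3⟩, ⟨_, _, h3'⟩⟩
    exact le_antisymm (h3 c hc) (h3' p hp)
  · intro p _
    exact (measurableSet_P S p h).nullMeasurableSet

/-! ### Right continuity and the derivative -/

lemma tendsto_G (S : Finset ℂ) (p : ℂ) : Tendsto (G S p) (𝓝 1) (𝓝 (G S p 1)) := by
  have : IsFiniteMeasure ((volume : Measure ℝ).restrict (Ioo (-Real.pi) Real.pi)) :=
    ⟨by rw [Measure.restrict_apply_univ, Real.volume_Ioo]; exact ENNReal.ofReal_lt_top⟩
  refine tendsto_measure_of_ae_tendsto_indicator_of_isFiniteMeasure (𝓝 1) (measurableSet_E S p 1)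
    (measurableSet_E S p) ?_
  let Z : Set ℝ := ⋃ c ∈ S, ⋃ _ : p ≠ c, {t : ℝ | (p - c).re * Real.cos t + (p - c).im * Real.sin t =
    -(((p - c).re ^ 2 + (p - c).im ^ 2) / 2)}
  have hZ : Z.Countable := by
    refine S.countable_toSet.biUnion fun c _ => countable_iUnion fun h => countable_trig ?_ _
    rintro ⟨h1, h2⟩
    apply h
    rw [← sub_eq_zero]
    exact Complex.ext h1 h2
  have hZ0 : (volume.restrict (Ioo (-Real.pi) Real.pi)) Z = 0 := hZ.measure_zero _
  have hae : ∀ᵐ t ∂(volume.restrict (Ioo (-Real.pi) Real.pi)), t ∉ Z := by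
    rw [ae_iff]
    simpa using hZ0
  filter_upwards [hae] with t ht
  -- every inequality is eventually equivalent to the one at `1`
  have key : ∀ c ∈ S, ∀ᶠ r in 𝓝 (1 : ℝ),
      (0 ≤ 2 * r * ((p - c).re * Real.cos t + (p - c).im * Real.sin t) +
        ((p - c).re ^ 2 + (p - c).im ^ 2) ↔
      0 ≤ 2 * 1 * ((p - c).re * Real.cos t + (p - c).im * Real.sin t) +
        ((p - c).re ^ 2 + (p - c).im ^ 2)) := by
    intro c hc
    by_cases hpc : p = c
    · subst hpc
      refine Eventually.of_forall fun r => ?_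
      simp
    have hne : 2 * 1 * ((p - c).re * Real.cos t + (p - c).im * Real.sin t) +
        ((p - c).re ^ 2 + (p - c).im ^ 2) ≠ 0 := by
      intro h0
      apply ht
      refine mem_iUnion₂.2 ⟨c, hc, mem_iUnion.2 ⟨hpc, ?_⟩⟩
      simp only [mem_ofPred_eq]
      linarith
    have hcont : Continuous fun r : ℝ => 2 * r * ((p - c).re * Real.cos t +
        (p - c).im * Real.sin t) + ((p - c).re ^ 2 + (p - c).im ^ 2) := by fun_prop
    rcases lt_or_gt_of_ne hne with hneg | hpos
    · have := hcont.continuousAt.eventually_lt (x₀ := 1) (continuousAt_const (y := (0 : ℝ))) hneg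
      filter_upwards [this] with r hr
      constructor <;> intro h <;> linarith
    · have := (continuousAt_const (y := (0 : ℝ))).eventually_lt (x₀ := 1) hcont.continuousAt hpos
      filter_upwards [this] with r hr
      constructor <;> intro h <;> linarith
  have hall : ∀ᶠ r in 𝓝 (1 : ℝ), ∀ c ∈ S,
      (0 ≤ 2 * r * ((p - c).re * Real.cos t + (p - c).im * Real.sin t) +
        ((p - c).re ^ 2 + (p - c).im ^ 2) ↔
      0 ≤ 2 * 1 * ((p - c).re * Real.cos t + (p - c).im * Real.sin t) +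
        ((p - c).re ^ 2 + (p - c).im ^ 2)) :=
    (S.eventually_all (l := 𝓝 (1 : ℝ))).2 key
  filter_upwards [hall] with r hr
  exact forall₂_congr hr

/-- The real valued density. -/
noncomputable def g (S : Finset ℂ) (p : ℂ) (r : ℝ) : ℝ := (ENNReal.ofReal r * G S p r).toReal

lemma measurable_g (S : Finset ℂ) (p : ℂ) : Measurable (g S p) :=
  (ENNReal.measurable_ofReal.mul (measurable_G S p)).ennreal_toReal

lemma G_ne_top (S : Finset ℂ) (p : ℂ) (r : ℝ) : G S p r ≠ ⊤ :=
  ne_top_of_le_ne_top ENNReal.ofReal_ne_top (G_le S p r)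

lemma g_le (S : Finset ℂ) (p : ℂ) {r : ℝ} (hr : r ≤ 2) : g S p r ≤ 2 * (2 * Real.pi) := by
  have hπ := Real.pi_pos
  have h1 : ENNReal.ofReal r * G S p r ≤ ENNReal.ofReal (2 * (2 * Real.pi)) := by
    rw [ENNReal.ofReal_mul (by norm_num : (0:ℝ) ≤ 2)]
    exact mul_le_mul' (ENNReal.ofReal_le_ofReal hr) (G_le S p r)
  exact ENNReal.toReal_le_of_le_ofReal (by positivity) h1

lemma g_nonneg (S : Finset ℂ) (p : ℂ) (r : ℝ) : 0 ≤ g S p r := ENNReal.toReal_nonneg

lemma continuousAt_g (S : Finset ℂ) (p : ℂ) : ContinuousAt (g S p) 1 := by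
  have h1 : g S p = fun r => (ENNReal.ofReal r).toReal * (G S p r).toReal :=
    funext fun r => ENNReal.toReal_mul
  have h2 : Tendsto (fun r => (ENNReal.ofReal r).toReal * (G S p r).toReal) (𝓝 1)
      (𝓝 ((ENNReal.ofReal 1).toReal * (G S p 1).toReal)) := by
    refine Tendsto.mul ?_ ?_
    · exact (ENNReal.tendsto_toReal ENNReal.ofReal_ne_top).comp
        (ENNReal.tendsto_ofReal tendsto_id)
    · exact (ENNReal.tendsto_toReal (G_ne_top S p 1)).comp (tendsto_G S p)
  rw [ContinuousAt, h1]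
  exact h2

lemma g_one (S : Finset ℂ) (p : ℂ) : g S p 1 = (G S p 1).toReal := by
  simp [g]

lemma lintegral_eq (S : Finset ℂ) (p : ℂ) {h : ℝ} (h0 : 0 < h) (h1 : h ≤ 1) :
    ∫⁻ r in Ioc 1 (1 + h), ENNReal.ofReal r * G S p r =
      ENNReal.ofReal (∫ r in (1:ℝ)..(1 + h), g S p r) := by
  rw [intervalIntegral.integral_of_le (by linarith), ofReal_integral_eq_lintegral_ofReal]
  · refine lintegral_congr fun r => ?_
    rw [g, ENNReal.ofReal_toReal (ENNReal.mul_ne_top ENNReal.ofReal_ne_top (G_ne_top S p r))]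
  · refine Measure.integrableOn_of_bounded (M := 2 * (2 * Real.pi)) ?_
      (measurable_g S p).aestronglyMeasurable ?_
    · rw [Real.volume_Ioc]
      exact ENNReal.ofReal_ne_top
    · refine (ae_restrict_iff' measurableSet_Ioc).2 (Eventually.of_forall fun r hr => ?_)
      rw [Real.norm_eq_abs, abs_of_nonneg (g_nonneg S p r)]
      exact g_le S p (by linarith [hr.2])
  · exact Eventually.of_forall fun r => g_nonneg S p r

lemma tendsto_quot (S : Finset ℂ) (p : ℂ) :
    Tendsto (fun h : ℝ => (∫ r in (1:ℝ)..(1 + h), g S p r) / h) (𝓝[>] 0)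
      (𝓝 (G S p 1).toReal) := by
  have hd : HasDerivWithinAt (fun u => ∫ x in (1:ℝ)..u, g S p x) (g S p 1) (Ici 1) 1 := by
    refine intervalIntegral.integral_hasDerivWithinAt_right (t := Ioi 1) ?_ ?_
      (continuousAt_g S p).continuousWithinAt
    · exact IntervalIntegrable.refl
    · exact (measurable_g S p).stronglyMeasurable.stronglyMeasurableAtFilter
  rw [hasDerivWithinAt_iff_tendsto_slope] at hd
  have h1 : Tendsto (fun h : ℝ => 1 + h) (𝓝[>] 0) (𝓝[Ici 1 \ {1}] 1) := by
    rw [Ici_sdiff_left]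
    refine tendsto_nhdsWithin_iff.2 ⟨?_, ?_⟩
    · have : Tendsto (fun h : ℝ => 1 + h) (𝓝 0) (𝓝 (1 + 0)) := tendsto_const_nhds.add tendsto_id
      rw [add_zero] at this
      exact this.mono_left nhdsWithin_le_nhds
    · filter_upwards [self_mem_nhdsWithin] with h hh
      simpa using hh
  have h2 := hd.comp h1
  rw [g_one] at h2
  refine h2.congr fun h => ?_
  simp only [Function.comp_apply, slope_def_field, intervalIntegral.integral_same, sub_zero,
    add_sub_cancel_left]

/-- Packet D. -/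
theorem statementD : Pool.Agent.Helper36.Disk.StatementD := by
  intro S
  rw [length_frontier]
  have hfin : ∀ p ∈ S, G S p 1 ≠ ⊤ := fun p _ => G_ne_top S p 1
  refine ⟨(ENNReal.sum_lt_top.2 fun p hp => (hfin p hp).lt_top).ne, ?_⟩
  rw [ENNReal.toReal_sum hfin]
  have h1 : Tendsto (fun h : ℝ => ∑ p ∈ S, (∫ r in (1:ℝ)..(1 + h), g S p r) / h) (𝓝[>] 0)
      (𝓝 (∑ p ∈ S, (G S p 1).toReal)) :=
    tendsto_finsetSum S fun p _ => tendsto_quot S p
  refine h1.congr' ?_
  have h2 : ∀ᶠ h : ℝ in 𝓝[>] 0, h < 1 := by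
    have : ∀ᶠ h : ℝ in 𝓝 0, h < 1 := Iio_mem_nhds one_pos
    exact this.filter_mono nhdsWithin_le_nhds
  filter_upwards [h2, self_mem_nhdsWithin] with h hlt hpos
  have hpos' : 0 < h := hpos
  rw [area_diff S hpos', ← Finset.sum_div]
  congr 1
  have h3 : ∀ p ∈ S, ∫⁻ r in Ioc 1 (1 + h), ENNReal.ofReal r * G S p r =
      ENNReal.ofReal (∫ r in (1:ℝ)..(1 + h), g S p r) :=
    fun p _ => lintegral_eq S p hpos' hlt.le
  rw [Finset.sum_congr rfl h3, ENNReal.toReal_sum fun p _ => ENNReal.ofReal_ne_top]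
  refine Finset.sum_congr rfl fun p _ => ?_
  rw [ENNReal.toReal_ofReal]
  exact intervalIntegral.integral_nonneg (by linarith) fun r _ => g_nonneg S p r

end Pool.Agent.Helper40.Disk
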